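import Mathlib
import Pool.Agent.Run7.h970.ND.Stm
import Pool.Agent.Run7.h680.BD.Exc
import Pool.Agent.Run7.h497.BD.LA
import Pool.Agent.TH87.BD.Basic

/-!
# Piece SEP of MP_d3e607_co (S11671)
-/

set_option autoImplicit false

namespace Pool.Agent.Run7.h680.ND

open SimpleGraph Pool.Agent.Run7.h970.ND

/-- In a rooted tree `Par` is the parent. -/
theorem par_some {V : Type} (T : SimpleGraph V) (r : V) (hT : T.IsTree) (p : V → Option V)
    (lev : V → ℕ) (h1 : ∀ x y, p x = some y → T.Adj x y ∧ lev x = lev y + 1)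
    (h2 : ∀ x, p x = none → x = r) (h3 : ∀ x y, T.Adj x y → p x = some y ∨ p y = some x)
    (x y : V) (h : Par T r x y) : p x = some y := by
  rcases h3 x y h.1 with h4 | h4
  · exact h4
  · exfalso
    -- every vertex of level at most `lev x` reaches `r` without the edge
    have key : ∀ n v, lev v = n → n ≤ lev x → (T.deleteEdges {s(x, y)}).Reachable v r := by
      intro n
      induction n using Nat.strong_induction_on with
      | _ n ih =>
        intro v hv hn
        cases hp : p v with
        | none => rw [h2 v hp]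
        | some w =>
          obtain ⟨ha, hl⟩ := h1 v w hp
          have h5 : (T.deleteEdges {s(x, y)}).Adj v w := by
            rw [deleteEdges_adj]
            refine ⟨ha, ?_⟩
            intro he
            rcases Sym2.eq_iff.1 (Set.mem_singleton_iff.1 he) with ⟨e1, e2⟩ | ⟨e1, e2⟩
            · have h6 := (h1 y x h4).2
              rw [e1, e2] at hl
              omega
            · have h6 := (h1 y x h4).2
              rw [e1] at hv
              omega
          exact h5.reachable.trans (ih (lev w) (by omega) w rfl (by omega))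
    have h5 := key (lev x) x rfl le_rfl
    have h6 : (T.deleteEdges {s(x, y)}).Reachable x y := h5.trans h.2.symm
    have h7 := (isAcyclic_iff_forall_adj_isBridge.1 hT.2) h.1
    rw [isBridge_iff] at h7
    exact h7 h6

theorem reach_edge {V : Type} (H : SimpleGraph V) (a b v w : V)
    (h : (H ⊔ edge a b).Reachable v w) :
    H.Reachable v w ∨ (H.Reachable v a ∧ H.Reachable b w) ∨ (H.Reachable v b ∧ H.Reachable a w) := by
  obtain ⟨p⟩ := h
  induction p with
  | nil => exact Or.inl (Reachable.refl _)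
  | cons hadj q ih =>
    rename_i u v' w'
    rw [sup_adj, edge_adj] at hadj
    rcases hadj with hadj | ⟨hadj, -⟩
    · rcases ih with h1 | ⟨h1, h2⟩ | ⟨h1, h2⟩
      · exact Or.inl (hadj.reachable.trans h1)
      · exact Or.inr (Or.inl ⟨hadj.reachable.trans h1, h2⟩)
      · exact Or.inr (Or.inr ⟨hadj.reachable.trans h1, h2⟩)
    · rcases hadj with ⟨rfl, rfl⟩ | ⟨rfl, rfl⟩
      · rcases ih with h1 | ⟨h1, h2⟩ | ⟨h1, h2⟩
        · exact Or.inr (Or.inl ⟨Reachable.refl _, h1⟩)
        · exact Or.inr (Or.inl ⟨Reachable.refl _, h2⟩)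
        · exact Or.inl h2
      · rcases ih with h1 | ⟨h1, h2⟩ | ⟨h1, h2⟩
        · exact Or.inr (Or.inr ⟨Reachable.refl _, h1⟩)
        · exact Or.inl h2
        · exact Or.inr (Or.inr ⟨Reachable.refl _, h2⟩)

/-- The linear algebra. `P` is a graph in which every vertex reaches `r` or an element of `X`. -/
theorem sepcore {V : Type} [Fintype V] (P : SimpleGraph V) (r x1 : V) (X : Finset V) (C : Set V)
    (pp : V → V) (l : V → ℕ) (hx1 : x1 ∈ X) (hXC : ∀ x ∈ X, x ∈ C)
    (hP : ∀ v, P.Reachable r v ∨ ∃ x ∈ X, P.Reachable x v)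
    (h : ∀ z, z ∈ C → z ≠ x1 → l (pp z) < l z) (hC : ∀ z, z ∈ C → z ≠ x1 → pp z ∈ C) :
    ∃ Y : Finset V, (∀ z ∈ Y, z ∈ C ∧ z ≠ x1) ∧
      (∀ v, (P ⊔ fromEdgeSet {e | ∃ z, z ∈ Y ∧ s(z, pp z) = e} ⊔ edge r x1).Reachable r v) ∧
      (∀ v ∈ C, ∃ x ∈ X, (fromEdgeSet {e | ∃ z, (z ∈ C ∧ z ≠ x1) ∧ z ∉ Y ∧
        s(z, pp z) = e}).Reachable v x) := by
  classical
  set K : Set V := {z | ¬ (z ∈ C ∧ z ≠ x1)} with hK
  have hKn : ∀ z, z ∉ K ↔ (z ∈ C ∧ z ≠ x1) := by
    intro z
    simp only [hK, Set.mem_setOf_eq, not_not]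
  have h' : ∀ x, x ∉ K → l (pp x) < l x := fun x hx =>
    h x ((hKn x).1 hx).1 ((hKn x).1 hx).2
  obtain ⟨ro, q, hrK, hr0, hr1, hq0, hq⟩ :=
    Pool.Agent.Run7.h680.BD.root_exists l K pp h'
  have hroC : ∀ x, x ∈ C → ro x = x1 := by
    refine Pool.Agent.Run7.h680.BD.lev_ind l K pp h' _ ?_ ?_
    · intro x hx hxC
      rw [hr0 x hx]
      by_contra hne
      exact hx ⟨hxC, hne⟩
    · intro x hx ih hxC
      rw [hr1 x hx]
      exact ih (hC x hxC ((hKn x).1 hx).2)
  let E : Submodule ℚ (V → ℚ) :=
    { carrier := {g | g r = 0 ∧ g x1 = 0 ∧ ∀ x y, P.Adj x y → g x = g y}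
      add_mem' := by
        rintro g g' ⟨h1, h2, h3⟩ ⟨h4, h5, h6⟩
        refine ⟨by simp [h1, h4], by simp [h2, h5], fun x y hxy => ?_⟩
        simp [h3 x y hxy, h6 x y hxy]
      zero_mem' := ⟨rfl, rfl, fun _ _ _ => rfl⟩
      smul_mem' := by
        rintro c g ⟨h1, h2, h3⟩
        refine ⟨by simp [h1], by simp [h2], fun x y hxy => ?_⟩
        simp [h3 x y hxy] }
  let α : V → (E →ₗ[ℚ] ℚ) := fun z =>
    { toFun := fun g => if z ∈ K then 0 else g.1 z - g.1 (pp z)
      map_add' := by
        intro g g'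
        split_ifs
        · simp
        · simp only [Submodule.coe_add, Pi.add_apply]
          ring
      map_smul' := by
        intro c g
        split_ifs
        · simp
        · simp only [Submodule.coe_smul, Pi.smul_apply, smul_eq_mul, RingHom.id_apply]
          ring }
  let β : V → (V → ℚ) := fun z b => if b ∈ X ∧ b ≠ x1 then q b z else 0
  have hα : ∀ z (g : E), α z g = if z ∈ K then 0 else g.1 z - g.1 (pp z) := fun _ _ => rfl
  have hβ : ∀ z b, β z b = if b ∈ X ∧ b ≠ x1 then q b z else 0 := fun _ _ => rfl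
  have hPconst : ∀ (g : V → ℚ), (∀ x y, P.Adj x y → g x = g y) →
      ∀ x y, P.Reachable x y → g x = g y := by
    intro g hg x y hxy
    obtain ⟨w⟩ := hxy
    induction w with
    | nil => rfl
    | cons hadj _ ih => rw [hg _ _ hadj, ih]
  have hΦ : ∀ c : E, ∑ z, α z c • β z = 0 → c = 0 := by
    intro c hc
    have h1 : ∀ b ∈ X, c.1 b = 0 := by
      intro b hb
      by_cases hba : b = x1
      · rw [hba]
        exact c.2.2.1
      have h2 := congrFun hc b
      rw [Finset.sum_apply] at h2
      have h3 : ∀ z, (α z c • β z) b = q b z * (c.1 z - c.1 (pp z)) := by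
        intro z
        have hβ' : β z b = q b z := if_pos ⟨hb, hba⟩
        rw [Pi.smul_apply, hα, hβ', smul_eq_mul]
        by_cases hz : z ∈ K
        · rw [if_pos hz, hq0 b z hz]
          ring
        · rw [if_neg hz]
          ring
      simp only [h3] at h2
      rw [hq, hroC b (hXC b hb), c.2.2.1] at h2
      have h4 : c.1 b - 0 = 0 := h2
      linarith
    apply Subtype.ext
    funext v
    rcases hP v with h2 | ⟨x, hx, h2⟩
    · have := hPconst c.1 c.2.2.2 r v h2
      rw [c.2.1] at this
      exact this.symm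
    · have := hPconst c.1 c.2.2.2 x v h2
      rw [h1 x hx] at this
      exact this.symm
  obtain ⟨Y, hY1, hY2⟩ := Pool.Agent.Run7.h497.BD.t_LA V E (V → ℚ) α β hΦ
  have hYK : ∀ z ∈ Y, z ∉ K := by
    intro z hz hzK
    have h1 : ∑ w, (Pi.single z (1 : ℚ) : V → ℚ) w • β w = 0 := by
      rw [Finset.sum_eq_single z]
      · funext b
        simp [hβ, hq0 b z hzK]
      · intro w _ hw
        simp [hw]
      · intro hh
        exact absurd (Finset.mem_univ z) hh
    have h2 := hY2 _ (fun w hw => by
      have : w ≠ z := fun e => hw (e ▸ hz)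
      simp [this]) h1
    have h3 := congrFun h2 z
    simp at h3
  refine ⟨Y, fun z hz => (hKn z).1 (hYK z hz), ?_, ?_⟩
  · set B' := (P ⊔ fromEdgeSet {e | ∃ z, z ∈ Y ∧ s(z, pp z) = e} ⊔ edge r x1) with hB'
    have hadj2 : ∀ z ∈ Y, B'.Adj z (pp z) := by
      intro z hz
      rw [hB', sup_adj, sup_adj, fromEdgeSet_adj]
      refine Or.inl (Or.inr ⟨⟨z, hz, rfl⟩, fun e => ?_⟩)
      have := h' z (hYK z hz)
      rw [← e] at this
      exact lt_irrefl _ this
    let g : V → ℚ := fun x => if B'.Reachable r x then 0 else 1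
    have hgadj : ∀ x y, B'.Adj x y → g x = g y := by
      intro x y hxy
      have : B'.Reachable r x ↔ B'.Reachable r y :=
        ⟨fun hh => hh.trans hxy.reachable, fun hh => hh.trans hxy.symm.reachable⟩
      simp only [g, this]
    have hgr : g r = 0 := by
      simp [g]
    have hgx1 : g x1 = 0 := by
      by_cases hrx : r = x1
      · rw [← hrx]
        exact hgr
      · rw [← hgadj r x1 (by rw [hB', sup_adj, edge_adj]; exact Or.inr ⟨Or.inl ⟨rfl, rfl⟩, hrx⟩)]
        exact hgr
    have hgE : g ∈ E := ⟨hgr, hgx1, fun x y hxy => hgadj x y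
      (by rw [hB', sup_adj, sup_adj]; exact Or.inl (Or.inl hxy))⟩
    have h1 := hY1 ⟨g, hgE⟩ (by
      intro z hz
      rw [hα, if_neg (hYK z hz)]
      have := hgadj z (pp z) (hadj2 z hz)
      simp only [this, sub_self])
    intro x
    by_contra hx
    have h2 := congrFun (congrArg Subtype.val h1) x
    simp [g, hx] at h2
  · set A' := (fromEdgeSet {e | ∃ z, (z ∈ C ∧ z ≠ x1) ∧ z ∉ Y ∧ s(z, pp z) = e}) with hA'
    have hadj1 : ∀ z, z ∉ K → z ∉ Y → A'.Adj z (pp z) := by
      intro z hz hzY
      rw [hA', fromEdgeSet_adj]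
      refine ⟨⟨z, (hKn z).1 hz, hzY, rfl⟩, fun e => ?_⟩
      have := h' z hz
      rw [← e] at this
      exact lt_irrefl _ this
    let g : V → ℚ := fun x => if (∃ k ∈ X, A'.Reachable x k) then 0 else 1
    have hgadj : ∀ x y, A'.Adj x y → g x = g y := by
      intro x y hxy
      have : (∃ k ∈ X, A'.Reachable x k) ↔ (∃ k ∈ X, A'.Reachable y k) :=
        ⟨fun ⟨k, hk, hh⟩ => ⟨k, hk, hxy.symm.reachable.trans hh⟩,
          fun ⟨k, hk, hh⟩ => ⟨k, hk, hxy.reachable.trans hh⟩⟩
      simp only [g, this]
    have hgX : ∀ x ∈ X, g x = 0 := by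
      intro x hx
      have : ∃ k ∈ X, A'.Reachable x k := ⟨x, hx, Reachable.refl x⟩
      simp only [g, this, if_true]
    let d : V → ℚ := fun z => if z ∈ Y then g z - g (pp z) else 0
    have hd : d = 0 := by
      refine hY2 d (fun z hz => by simp [d, hz]) ?_
      funext b
      rw [Finset.sum_apply]
      by_cases hb : b ∈ X ∧ b ≠ x1
      · have h3 : ∀ z, (d z • β z) b = q b z * (g z - g (pp z)) := by
          intro z
          have hβ' : β z b = q b z := if_pos hb
          rw [Pi.smul_apply, hβ', smul_eq_mul]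
          by_cases hzK : z ∈ K
          · rw [hq0 b z hzK]
            ring
          · by_cases hzY : z ∈ Y
            · simp only [d, hzY, if_true]
              ring
            · simp only [d, hzY, if_false]
              rw [hgadj z (pp z) (hadj1 z hzK hzY)]
              ring
        simp only [h3]
        rw [hq, hroC b (hXC b hb.1), hgX b hb.1, hgX x1 hx1]
        simp
      · have h3 : ∀ z, (d z • β z) b = 0 := by
          intro z
          have hβ' : β z b = 0 := if_neg hb
          rw [Pi.smul_apply, hβ', smul_zero]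
        simp only [h3]
        simp
    have hgz : ∀ x, x ∈ C → g x = 0 := by
      refine Pool.Agent.Run7.h680.BD.lev_ind l K pp h' _ ?_ ?_
      · intro x hx hxC
        have : x = x1 := by
          by_contra hne
          exact hx ⟨hxC, hne⟩
        rw [this]
        exact hgX x1 hx1
      · intro x hx ih hxC
        have ih' := ih (hC x hxC ((hKn x).1 hx).2)
        by_cases hxY : x ∈ Y
        · have := congrFun hd x
          simp only [d, hxY, if_true, Pi.zero_apply] at this
          linarith
        · rw [hgadj x (pp x) (hadj1 x hx hxY)]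
          exact ih'
    intro x hxC
    by_contra hx
    have := hgz x hxC
    simp [g, hx] at this

/-- Edge count: if `W` together with star edges reaches `x1` from all of `C`. -/
theorem count_star {V : Type} [Fintype V] (A : SimpleGraph V) (C : Set V) (x1 : V) (W : Finset V)
    (hx1 : x1 ∈ C)
    (h : ∀ v ∈ C, (A ⊔ fromEdgeSet {e | ∃ w ∈ W, e = s(w, x1)}).Reachable v x1) :
    C.ncard ≤ A.edgeSet.ncard + W.card + 1 := by
  classical
  set H := A ⊔ fromEdgeSet {e | ∃ w ∈ W, e = s(w, x1)} with hH
  set H' := H ⊔ fromEdgeSet ((fun v => s(v, x1)) '' Cᶜ) with hH'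
  have hconn : H'.Connected := by
    have : Nonempty V := ⟨x1⟩
    refine ⟨fun u v => ?_⟩
    have key : ∀ v, H'.Reachable v x1 := by
      intro v
      by_cases hv : v ∈ C
      · exact (h v hv).mono le_sup_left
      · refine Adj.reachable ?_
        rw [hH', sup_adj, fromEdgeSet_adj]
        exact Or.inr ⟨⟨v, hv, rfl⟩, fun e => hv (e ▸ hx1)⟩
    exact (key u).trans (key v).symm
  have h1 := hconn.card_vert_le_card_edgeSet_add_one
  rw [Nat.card_eq_fintype_card (α := V)] at h1
  have h1' : Fintype.card V ≤ H'.edgeSet.ncard + 1 := h1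
  have h2 : H'.edgeSet.ncard ≤ A.edgeSet.ncard + W.card + Cᶜ.ncard := by
    have h3 : H'.edgeSet ⊆ (A.edgeSet ∪ ((W.image fun w => s(w, x1) : Finset (Sym2 V)) :
        Set (Sym2 V))) ∪ ((fun v => s(v, x1)) '' Cᶜ) := by
      intro e he
      rw [hH', hH, edgeSet_sup, edgeSet_sup] at he
      rcases he with (he | he) | he
      · exact Or.inl (Or.inl he)
      · rw [edgeSet_fromEdgeSet] at he
        obtain ⟨w, hw, rfl⟩ := he.1
        refine Or.inl (Or.inr ?_)
        rw [Finset.mem_coe, Finset.mem_image]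
        exact ⟨w, hw, rfl⟩
      · rw [edgeSet_fromEdgeSet] at he
        exact Or.inr he.1
    refine (Set.ncard_le_ncard h3 (Set.toFinite _)).trans ?_
    refine (Set.ncard_union_le _ _).trans ?_
    refine Nat.add_le_add ((Set.ncard_union_le _ _).trans ?_) (Set.ncard_image_le (Set.toFinite _))
    rw [Set.ncard_coe_finset]
    exact Nat.add_le_add_left Finset.card_image_le _
  have h3 : C.ncard + Cᶜ.ncard = Fintype.card V := by
    rw [Set.ncard_add_ncard_compl, Nat.card_eq_fintype_card]
  omega

theorem t_SEP : S_SEP := by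
  classical
  intro V _ T R r x1 X yy hT hR hx1 hPar hXR
  -- the rooting of `T` at `r`
  obtain ⟨pT, lT, hT1, hT2, hT3, hT4⟩ := Pool.Agent.TH87.BD.exists_rooting_at T hT.2
    (fun _ => r) (fun x => hT.1.preconnected x r) (fun _ _ _ => rfl)
  have hTr : ∀ x, pT x = none → x = r := by
    intro x hx
    have h1 := hT2 x hx
    rw [hT4] at h1
    rcases dist_eq_zero_iff_eq_or_not_reachable.1 h1 with h2 | h2
    · exact h2
    · exact absurd (hT.1.preconnected x r) h2
  have hTp : ∀ x ∈ X, pT x = some (yy x) := fun x hx =>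
    par_some T r hT pT lT hT1 hTr hT3 x (yy x) (hPar x hx)
  set FS : Set (Sym2 V) := {e | ∃ x ∈ X, e = s(x, yy x)} with hFS
  set P := T.deleteEdges FS with hPdef
  have hP : ∀ v, P.Reachable r v ∨ ∃ x ∈ X, P.Reachable x v := by
    have key : ∀ n v, lT v = n → (P.Reachable r v ∨ ∃ x ∈ X, P.Reachable x v) := by
      intro n
      induction n using Nat.strong_induction_on with
      | _ n ih =>
        intro v hv
        cases hp : pT v with
        | none => exact Or.inl (by rw [hTr v hp])
        | some w =>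
          obtain ⟨ha, hl⟩ := hT1 v w hp
          by_cases hvX : v ∈ X
          · exact Or.inr ⟨v, hvX, Reachable.refl v⟩
          · have hadj : P.Adj w v := by
              rw [hPdef, deleteEdges_adj]
              refine ⟨ha.symm, ?_⟩
              rintro ⟨x, hx, he⟩
              have h5 := hTp x hx
              rcases Sym2.eq_iff.1 he with ⟨e1, e2⟩ | ⟨e1, e2⟩
              · rw [← e2, ← e1] at h5
                have := (hT1 w v h5).2
                omega
              · exact hvX (e2 ▸ hx)
            rcases ih (lT w) (by omega) w rfl with h5 | ⟨x, hx, h5⟩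
            · exact Or.inl (h5.trans hadj.reachable)
            · exact Or.inr ⟨x, hx, h5.trans hadj.reachable⟩
    exact fun v => key _ v rfl
  -- the rooting of `R` at `x1`
  set C : Set V := {v | R.Reachable x1 v} with hCdef
  set ro : V → V := fun v => if R.Reachable x1 v then x1 else (R.connectedComponentMk v).out
    with hro
  obtain ⟨pR, lR, hR1, hR2, hR3, hR4⟩ := Pool.Agent.TH87.BD.exists_rooting_at R hR ro
    (by
      intro v
      by_cases hv : R.Reachable x1 v
      · simp only [hro, if_pos hv]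
        exact hv.symm
      · simp only [hro, if_neg hv]
        exact (ConnectedComponent.exact (R.connectedComponentMk v).out_eq).symm)
    (by
      intro v w hvw
      by_cases hv : R.Reachable x1 v
      · have hw : R.Reachable x1 w := hv.trans hvw
        simp only [hro, if_pos hv, if_pos hw]
      · have hw : ¬ R.Reachable x1 w := fun hw => hv (hw.trans hvw.symm)
        simp only [hro, if_neg hv, if_neg hw]
        rw [ConnectedComponent.sound hvw])
  set pp : V → V := fun v => (pR v).getD v with hpp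
  have hroC : ∀ v ∈ C, ro v = x1 := by
    intro v hv
    have hv' : R.Reachable x1 v := hv
    simp only [hro, if_pos hv']
  have hpR : ∀ z, z ∈ C → z ≠ x1 → pR z = some (pp z) := by
    intro z hz hne
    cases hp : pR z with
    | some w => simp [hpp, hp]
    | none =>
      exfalso
      have h1 := hR2 z hp
      rw [hR4, hroC z hz] at h1
      rcases dist_eq_zero_iff_eq_or_not_reachable.1 h1 with h2 | h2
      · exact hne h2
      · exact h2 (show R.Reachable x1 z from hz).symm
  have hx1C : x1 ∈ C := Reachable.refl x1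
  have hpx1 : pR x1 = none := by
    cases hp : pR x1 with
    | none => rfl
    | some w =>
      exfalso
      have h1 := (hR1 x1 w hp).2
      have h2 := hR4 x1
      rw [hroC x1 hx1C, SimpleGraph.dist_self] at h2
      omega
  have hl : ∀ z, z ∈ C → z ≠ x1 → lR (pp z) < lR z := by
    intro z hz hne
    have := (hR1 z (pp z) (hpR z hz hne)).2
    omega
  have hppC : ∀ z, z ∈ C → z ≠ x1 → pp z ∈ C := by
    intro z hz hne
    exact (show R.Reachable x1 z from hz).trans (hR1 z (pp z) (hpR z hz hne)).1.reachable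
  obtain ⟨Z, hZ1, hZ2, hZ3⟩ := sepcore P r x1 X C pp lR hx1 hXR hP hl hppC
  have hinj : ∀ z z', (z ∈ C ∧ z ≠ x1) → (z' ∈ C ∧ z' ≠ x1) → s(z, pp z) = s(z', pp z') →
      z = z' := by
    intro z z' hz hz' e
    rcases Sym2.eq_iff.1 e with ⟨e1, -⟩ | ⟨e1, e2⟩
    · exact e1
    · exfalso
      have h1 := hl z hz.1 hz.2
      have h2 := hl z' hz'.1 hz'.2
      rw [e2] at h1
      rw [← e1] at h2
      omega
  set Y : Finset (Sym2 V) := Z.image (fun z => s(z, pp z)) with hY
  have hYcoe : (Y : Set (Sym2 V)) = {e | ∃ z, z ∈ Z ∧ s(z, pp z) = e} := by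
    ext e
    simp [hY]
  have hYcard : Y.card = Z.card := by
    rw [hY]
    refine Finset.card_image_of_injOn ?_
    intro z hz z' hz' e
    exact hinj z z' (hZ1 z hz) (hZ1 z' hz') e
  have hYR : (Y : Set (Sym2 V)) ⊆ R.edgeSet := by
    rw [hYcoe]
    rintro e ⟨z, hz, rfl⟩
    exact (hR1 z (pp z) (hpR z (hZ1 z hz).1 (hZ1 z hz).2)).1
  -- counting the edges of `P`
  have hTcard : T.edgeSet.ncard + 1 = Fintype.card V := by
    have := (isTree_iff_connected_and_card.1 hT).2
    rw [Nat.card_eq_fintype_card (α := V)] at this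
    exact this
  have hFSsub : FS ⊆ T.edgeSet := by
    rintro e ⟨x, hx, rfl⟩
    exact (hPar x hx).1
  have hFScard : FS.ncard = X.card := by
    have h1 : FS = ((X.image fun x => s(x, yy x) : Finset (Sym2 V)) : Set (Sym2 V)) := by
      ext e
      simp only [hFS, Finset.coe_image, Set.mem_image, Finset.mem_coe]
      constructor
      · rintro ⟨x, hx, rfl⟩
        exact ⟨x, hx, rfl⟩
      · rintro ⟨x, hx, rfl⟩
        exact ⟨x, hx, rfl⟩
    rw [h1, Set.ncard_coe_finset]
    refine Finset.card_image_of_injOn ?_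
    intro x hx x' hx' e
    rcases Sym2.eq_iff.1 e with ⟨e1, -⟩ | ⟨e1, e2⟩
    · exact e1
    · exfalso
      have h1 := (hT1 x _ (hTp x hx)).2
      have h2 := (hT1 x' _ (hTp x' hx')).2
      rw [e2] at h1
      rw [← e1] at h2
      omega
  have hPcard : P.edgeSet.ncard + X.card + 1 = Fintype.card V := by
    have h1 : P.edgeSet = T.edgeSet \ FS := by
      rw [hPdef, edgeSet_deleteEdges]
    have h2 : P.edgeSet.ncard = T.edgeSet.ncard - FS.ncard := by
      rw [h1]
      exact Set.ncard_sdiff hFSsub (Set.toFinite _)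
    have h3 : FS.ncard ≤ T.edgeSet.ncard := Set.ncard_le_ncard hFSsub (Set.toFinite _)
    omega
  set T' := P ⊔ fromEdgeSet (Y : Set (Sym2 V)) with hT'
  have hconn : ∀ v, (T' ⊔ edge r x1).Reachable r v := by
    rw [hT', hYcoe]
    exact hZ2
  have hT'card : T'.edgeSet.ncard ≤ P.edgeSet.ncard + Y.card := by
    have h1 : T'.edgeSet ⊆ P.edgeSet ∪ (Y : Set (Sym2 V)) := by
      intro e he
      rw [hT', edgeSet_sup, edgeSet_fromEdgeSet] at he
      rcases he with he | he
      · exact Or.inl he
      · exact Or.inr he.1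
    refine (Set.ncard_le_ncard h1 (Set.toFinite _)).trans ((Set.ncard_union_le _ _).trans ?_)
    rw [Set.ncard_coe_finset]
  have hedge : ∀ a b : V, (T' ⊔ edge a b).edgeSet.ncard ≤ T'.edgeSet.ncard + 1 := by
    intro a b
    have h1 : (T' ⊔ edge a b).edgeSet ⊆ T'.edgeSet ∪ {s(a, b)} := by
      intro e he
      rw [edgeSet_sup] at he
      rcases he with he | he
      · exact Or.inl he
      · refine Or.inr ?_
        rw [edge, edgeSet_fromEdgeSet] at he
        exact he.1
    refine (Set.ncard_le_ncard h1 (Set.toFinite _)).trans ((Set.ncard_union_le _ _).trans ?_)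
    rw [Set.ncard_singleton]
  have hge : X.card ≤ Y.card + 1 := by
    have hc : (T' ⊔ edge r x1).Connected := by
      have : Nonempty V := ⟨r⟩
      exact ⟨fun x y => (hconn x).symm.trans (hconn y)⟩
    have h1 := hc.card_vert_le_card_edgeSet_add_one
    rw [Nat.card_eq_fintype_card (α := V)] at h1
    have h1' : Fintype.card V ≤ (T' ⊔ edge r x1).edgeSet.ncard + 1 := h1
    have h2 := hedge r x1
    omega
  -- the graph `A'`
  set A' := (fromEdgeSet {e | ∃ z, (z ∈ C ∧ z ≠ x1) ∧ z ∉ Z ∧ s(z, pp z) = e}) with hA'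
  have hA'card : A'.edgeSet.ncard + Z.card + 1 ≤ C.ncard := by
    have h1 : A'.edgeSet ⊆ (fun z => s(z, pp z)) '' ((C \ {x1}) \ (Z : Set V)) := by
      intro e he
      rw [hA', edgeSet_fromEdgeSet] at he
      obtain ⟨z, hz, hzZ, h2⟩ := he.1
      exact ⟨z, ⟨⟨hz.1, hz.2⟩, hzZ⟩, h2⟩
    have h2 : (Z : Set V) ⊆ C \ {x1} := fun z hz => ⟨(hZ1 z hz).1, (hZ1 z hz).2⟩
    have h3 : ((C \ {x1}) \ (Z : Set V)).ncard = (C \ {x1}).ncard - Z.card := by
      rw [Set.ncard_sdiff h2 (Set.toFinite _), Set.ncard_coe_finset]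
    have h4 : Z.card ≤ (C \ {x1}).ncard := by
      rw [← Set.ncard_coe_finset]
      exact Set.ncard_le_ncard h2 (Set.toFinite _)
    have h5 : (C \ {x1}).ncard + 1 = C.ncard :=
      Set.ncard_sdiff_singleton_add_one hx1C (Set.toFinite _)
    have h6 : A'.edgeSet.ncard ≤ ((C \ {x1}) \ (Z : Set V)).ncard :=
      (Set.ncard_le_ncard h1 (Set.toFinite _)).trans (Set.ncard_image_le (Set.toFinite _))
    omega
  have hmain : ∀ W : Finset V, (∀ v ∈ C,
      (A' ⊔ fromEdgeSet {e | ∃ w ∈ W, e = s(w, x1)}).Reachable v x1) → Z.card ≤ W.card := by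
    intro W hW
    have := count_star A' C x1 W hx1C hW
    omega
  have hstar : ∀ (W : Finset V), ∀ w ∈ W,
      (A' ⊔ fromEdgeSet {e | ∃ w ∈ W, e = s(w, x1)}).Reachable w x1 := by
    intro W w hw
    by_cases hwx : w = x1
    · rw [hwx]
    · refine Adj.reachable ?_
      rw [sup_adj, fromEdgeSet_adj]
      exact Or.inr ⟨⟨w, hw, rfl⟩, hwx⟩
  have hle : Z.card ≤ (X.erase x1).card := by
    apply hmain
    intro v hv
    obtain ⟨x, hx, h1⟩ := hZ3 v hv
    refine (h1.mono le_sup_left).trans ?_
    by_cases hxx : x = x1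
    · rw [hxx]
    · exact hstar _ x (Finset.mem_erase.2 ⟨hxx, hx⟩)
  have hXe : (X.erase x1).card + 1 = X.card := Finset.card_erase_add_one hx1
  have hYX : Y.card + 1 = X.card := by omega
  have hT'le : T'.edgeSet.ncard + 2 ≤ Fintype.card V := by omega
  -- separation
  have hwalk : ∀ u v, (R.deleteEdges (Y : Set (Sym2 V))).Reachable u v → u ∈ C →
      A'.Reachable u v := by
    intro u v huv
    obtain ⟨w⟩ := huv
    induction w with
    | nil => exact fun _ => Reachable.refl _
    | cons hadj q ih =>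
      rename_i u v' w'
      intro hu
      rw [deleteEdges_adj] at hadj
      have hv : v' ∈ C := (show R.Reachable x1 u from hu).trans hadj.1.reachable
      refine Reachable.trans (Adj.reachable ?_) (ih hv)
      rw [hA', fromEdgeSet_adj]
      refine ⟨?_, hadj.1.ne⟩
      have hno : ∀ a b, pR a = some b → a ∈ C → s(a, b) ∉ (Y : Set (Sym2 V)) →
          ∃ z, (z ∈ C ∧ z ≠ x1) ∧ z ∉ Z ∧ s(z, pp z) = s(a, b) := by
        intro a b hab haC hnot
        have hb : pp a = b := by simp [hpp, hab]
        have hax : a ≠ x1 := by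
          rintro rfl
          rw [hpx1] at hab
          exact absurd hab (by simp)
        refine ⟨a, ⟨haC, hax⟩, ?_, by rw [hb]⟩
        intro haZ
        apply hnot
        rw [hYcoe]
        exact ⟨a, haZ, by rw [hb]⟩
      rcases hR3 u v' hadj.1 with h1 | h1
      · exact hno u v' h1 hu hadj.2
      · have := hno v' u h1 hv (by rw [Sym2.eq_swap]; exact hadj.2)
        rw [Sym2.eq_swap] at this
        exact this
  have hsep0 : ∀ x ∈ X, ∀ x' ∈ X, x ≠ x' → x' ≠ x1 →
      ¬ (R.deleteEdges (Y : Set (Sym2 V))).Reachable x x' := by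
    intro x hx x' hx' hne hx'1 hre
    have h1 : A'.Reachable x x' := hwalk x x' hre (hXR x hx)
    have h2 : Z.card ≤ ((X.erase x1).erase x').card := by
      apply hmain
      have hx0 : (A' ⊔ fromEdgeSet {e | ∃ w ∈ ((X.erase x1).erase x'), e = s(w, x1)}).Reachable
          x x1 := by
        by_cases hxx : x = x1
        · rw [hxx]
        · exact hstar _ x (Finset.mem_erase.2 ⟨hne, Finset.mem_erase.2 ⟨hxx, hx⟩⟩)
      intro v hv
      obtain ⟨w, hw, h3⟩ := hZ3 v hv
      refine (h3.mono le_sup_left).trans ?_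
      by_cases hwx : w = x1
      · rw [hwx]
      · by_cases hwx' : w = x'
        · rw [hwx']
          exact (h1.symm.mono le_sup_left).trans hx0
        · exact hstar _ w (Finset.mem_erase.2 ⟨hwx', Finset.mem_erase.2 ⟨hwx, hw⟩⟩)
    have h3 : ((X.erase x1).erase x').card + 1 = (X.erase x1).card :=
      Finset.card_erase_add_one (Finset.mem_erase.2 ⟨hx'1, hx'⟩)
    omega
  have hsep : ∀ x ∈ X, ∀ x' ∈ X, x ≠ x' →
      ¬ (R.deleteEdges (Y : Set (Sym2 V))).Reachable x x' := by
    intro x hx x' hx' hne hre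
    by_cases hx'1 : x' = x1
    · exact hsep0 x' hx' x hx hne.symm (fun e => hne (e.trans hx'1.symm)) hre.symm
    · exact hsep0 x hx x' hx' hne hx'1 hre
  -- the hole
  have hnot : ¬ T'.Reachable x1 r := by
    intro hre
    have hc : T'.Connected := by
      have : Nonempty V := ⟨r⟩
      have key : ∀ v, T'.Reachable r v := by
        intro v
        rcases reach_edge T' r x1 r v (hconn v) with h1 | ⟨-, h1⟩ | ⟨h1, h2⟩
        · exact h1
        · exact hre.symm.trans h1
        · exact h2
      exact ⟨fun x y => (key x).symm.trans (key y)⟩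
    have h1 := hc.card_vert_le_card_edgeSet_add_one
    rw [Nat.card_eq_fintype_card (α := V)] at h1
    have h1' : Fintype.card V ≤ T'.edgeSet.ncard + 1 := h1
    omega
  have hside : ∀ v, T'.Reachable v r ∨ T'.Reachable v x1 := by
    intro v
    rcases reach_edge T' r x1 r v (hconn v) with h1 | ⟨-, h1⟩ | ⟨h1, -⟩
    · exact Or.inl h1.symm
    · exact Or.inr h1.symm
    · exact absurd h1.symm hnot
  refine ⟨Y, {v | ¬ T'.Reachable v r}, hYR, hYX, ?_, hsep, hnot, ?_, ?_, ?_⟩
  · intro e he z hz
    have he' : e ∈ (Y : Set (Sym2 V)) := he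
    rw [hYcoe] at he'
    obtain ⟨z', hz', rfl⟩ := he'
    rcases Sym2.mem_iff.1 hz with rfl | rfl
    · exact (hZ1 _ hz').1
    · exact hppC z' (hZ1 _ hz').1 (hZ1 _ hz').2
  · intro h1
    exact h1 (Reachable.refl r)
  · intro x y hxy
    have h1 : T'.Reachable x r ↔ T'.Reachable y r :=
      ⟨fun hh => hxy.symm.reachable.trans hh, fun hh => hxy.reachable.trans hh⟩
    exact not_congr h1
  · intro x y hx hy
    have hx' : T'.Reachable x r := by
      by_contra h1
      exact hx h1
    have hy' : T'.Reachable y x1 := by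
      rcases hside y with h1 | h1
      · exact absurd h1 hy
      · exact h1
    have hxy : x ≠ y := fun e => hy (e ▸ hx')
    have hadj : (T' ⊔ edge x y).Adj x y := by
      rw [sup_adj, edge_adj]
      exact Or.inr ⟨Or.inl ⟨rfl, rfl⟩, hxy⟩
    have hc : (T' ⊔ edge x y).Connected := by
      have : Nonempty V := ⟨r⟩
      have key : ∀ v, (T' ⊔ edge x y).Reachable v r := by
        intro v
        rcases hside v with h1 | h1
        · exact h1.mono le_sup_left
        · exact ((h1.trans hy'.symm).mono le_sup_left).trans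
            (hadj.symm.reachable.trans (hx'.mono le_sup_left))
      exact ⟨fun u v => (key u).trans (key v).symm⟩
    rw [isTree_iff_connected_and_card]
    refine ⟨hc, ?_⟩
    rw [Nat.card_eq_fintype_card (α := V)]
    have h1 := hc.card_vert_le_card_edgeSet_add_one
    rw [Nat.card_eq_fintype_card (α := V)] at h1
    have h1' : Fintype.card V ≤ (T' ⊔ edge x y).edgeSet.ncard + 1 := h1
    have h2 := hedge x y
    have h3 : (T' ⊔ edge x y).edgeSet.ncard + 1 = Fintype.card V := by omega
    exact h3

end Pool.Agent.Run7.h680.ND
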